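import Mathlib

/-!
# Subalgebras of free algebras whose leading words form a regular language

Let `F` be the non-unital free algebra of rank `n` over a field `K` (the augmentation ideal of
`FreeAlgebra K (Fin n)`), and `I` an ideal with `F / I` nil.  If a subspace `A ⊇ I` has a regular
language of leading words (for some well order of the words), then `A` has finite codimension.
This applies to the subalgebras generated by finitely many monomials, and to those with a finite
SAGBI basis.
-/

set_option autoImplicit false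

namespace Pool.Agent.Results.MP_0d1f08_al.RegularLeading

/-- The monomial of the free algebra given by the word `w`. -/
def wd (K : Type) [Field K] {n : ℕ} (w : List (Fin n)) : FreeAlgebra K (Fin n) :=
  (w.map (FreeAlgebra.ι K)).prod

/-- The coefficient of the word `w` in the noncommutative polynomial `f`. -/
noncomputable def coeff {K : Type} [Field K] {n : ℕ} (f : FreeAlgebra K (Fin n))
    (w : List (Fin n)) : K :=
  (FreeAlgebra.basisFreeMonoid K (Fin n)).repr f (FreeMonoid.ofList w)

/-- `w` is the leading word of `f` with respect to the order `r` (read `r v w` as `v < w`). -/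
def IsLead {K : Type} [Field K] {n : ℕ} (r : List (Fin n) → List (Fin n) → Prop)
    (f : FreeAlgebra K (Fin n)) (w : List (Fin n)) : Prop :=
  coeff f w ≠ 0 ∧ ∀ v, coeff f v ≠ 0 → v = w ∨ r v w

/-- The language of the leading words of the elements of `A`. -/
def leadLang {K : Type} [Field K] {n : ℕ} (r : List (Fin n) → List (Fin n) → Prop)
    (A : Set (FreeAlgebra K (Fin n))) : Language (Fin n) :=
  {w | ∃ f ∈ A, IsLead r f w}

/-- The nonempty products of words of `W`. -/
def plusLang {n : ℕ} (W : Set (List (Fin n))) : Language (Fin n) :=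
  {w | ∃ l : List (List (Fin n)), l ≠ [] ∧ (∀ u ∈ l, u ∈ W) ∧ w = l.flatten}

/-- `F / I` is a nil algebra, `F` being the augmentation ideal. -/
def NilMod {K : Type} [Field K] {n : ℕ} (I : TwoSidedIdeal (FreeAlgebra K (Fin n))) : Prop :=
  ∀ f : FreeAlgebra K (Fin n), FreeAlgebra.lift K (0 : Fin n → K) f = 0 →
    ∃ m : ℕ, 0 < m ∧ f ^ m ∈ I


/-! ### jB -/

theorem jB_coeff_wd_aux1 (K : Type) [Field K] (n : ℕ) (w : List (Fin n)) :
    FreeAlgebra.equivMonoidAlgebraFreeMonoid
      ((w.map (FreeAlgebra.ι K)).prod : FreeAlgebra K (Fin n)) =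
      MonoidAlgebra.of K (FreeMonoid (Fin n)) (FreeMonoid.ofList w) := by
  induction w with
  | nil => rw [List.map_nil, List.prod_nil, map_one, FreeMonoid.ofList_nil, map_one]
  | cons a w ih =>
    rw [List.map_cons, List.prod_cons, map_mul, ih, FreeMonoid.ofList_cons, map_mul]
    congr 1
    simp [FreeAlgebra.equivMonoidAlgebraFreeMonoid]

theorem jB_coeff_wd_aux2 (K : Type) [Field K] (n : ℕ) (f : FreeAlgebra K (Fin n)) :
    (FreeAlgebra.basisFreeMonoid K (Fin n)).repr f =
      MonoidAlgebra.coeffLinearEquiv K (FreeAlgebra.equivMonoidAlgebraFreeMonoid f) := by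
  simp [FreeAlgebra.basisFreeMonoid, Finsupp.basisSingleOne]

theorem jB_coeff_wd_aux3 (K : Type) [Field K] (n : ℕ) (w : FreeMonoid (Fin n)) :
    MonoidAlgebra.coeffLinearEquiv K (MonoidAlgebra.of K (FreeMonoid (Fin n)) w) =
      Finsupp.single w (1 : K) := by
  simp [MonoidAlgebra.coeffLinearEquiv]

theorem coeff_wd {K : Type} [Field K] {n : ℕ} (w v : List (Fin n)) :
    coeff (wd K w) v = if v = w then 1 else 0 := by
  unfold coeff wd
  rw [jB_coeff_wd_aux2, jB_coeff_wd_aux1, jB_coeff_wd_aux3]
  by_cases h : v = w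
  · rw [if_pos h, h, Finsupp.single_eq_same]
  · rw [if_neg h]
    apply Finsupp.single_eq_of_ne
    intro h'
    exact h (FreeMonoid.ofList.injective h')

theorem coeff_add {K : Type} [Field K] {n : ℕ} (f g : FreeAlgebra K (Fin n)) (v : List (Fin n)) :
    coeff (f + g) v = coeff f v + coeff g v := by
  unfold coeff
  rw [map_add, Finsupp.add_apply]

theorem coeff_sub {K : Type} [Field K] {n : ℕ} (f g : FreeAlgebra K (Fin n)) (v : List (Fin n)) :
    coeff (f - g) v = coeff f v - coeff g v := by
  unfold coeff
  rw [map_sub, Finsupp.sub_apply]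

theorem coeff_smul {K : Type} [Field K] {n : ℕ} (c : K) (f : FreeAlgebra K (Fin n)) (v : List (Fin n)) :
    coeff (c • f) v = c * coeff f v := by
  unfold coeff
  rw [map_smul, Finsupp.smul_apply, smul_eq_mul]

theorem coeff_finite {K : Type} [Field K] {n : ℕ} (f : FreeAlgebra K (Fin n)) :
    {v | coeff f v ≠ 0}.Finite := by
  have h : {v : List (Fin n) | coeff f v ≠ 0} =
      FreeMonoid.ofList ⁻¹' (((FreeAlgebra.basisFreeMonoid K (Fin n)).repr f).support : Set _) := by
    ext v
    simp only [Set.mem_preimage, Finset.mem_coe, Finsupp.mem_support_iff, coeff]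
    rfl
  rw [h]
  exact (Finset.finite_toSet _).preimage FreeMonoid.ofList.injective.injOn

theorem eq_zero_of_coeff {K : Type} [Field K] {n : ℕ} (f : FreeAlgebra K (Fin n))
    (h : ∀ v, coeff f v = 0) : f = 0 := by
  apply (FreeAlgebra.basisFreeMonoid K (Fin n)).repr.injective
  rw [map_zero]
  ext v
  rw [Finsupp.zero_apply]
  exact h (FreeMonoid.toList v)

theorem wd_append {K : Type} [Field K] {n : ℕ} (u v : List (Fin n)) :
    wd K (u ++ v) = wd K u * wd K v := by
  unfold wd
  rw [List.map_append, List.prod_append]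

theorem wd_flatten {K : Type} [Field K] {n : ℕ} (l : List (List (Fin n))) :
    wd K l.flatten = (l.map (wd K)).prod := by
  induction l with
  | nil => simp [wd]
  | cons a l ih => rw [List.flatten_cons, wd_append, ih, List.map_cons, List.prod_cons]

theorem wd_aug {K : Type} [Field K] {n : ℕ} (w : List (Fin n)) (hw : w ≠ []) :
    FreeAlgebra.lift K (0 : Fin n → K) (wd K w) = 0 := by
  cases w with
  | nil => exact absurd rfl hw
  | cons a w =>
    unfold wd
    rw [List.map_cons, List.prod_cons, map_mul, FreeAlgebra.lift_ι_apply, Pi.zero_apply, zero_mul]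

/-- the leading word of a monomial -/
theorem isLead_wd {K : Type} [Field K] {n : ℕ} (r : List (Fin n) → List (Fin n) → Prop)
    (w : List (Fin n)) : IsLead r (wd K w) w := by
  constructor
  · rw [coeff_wd, if_pos rfl]
    exact one_ne_zero
  · intro v hv
    left
    by_contra h
    rw [coeff_wd, if_neg h] at hv
    exact hv rfl

/-! ### jP -/

/-- pumping: an infinite language with regular complement contains all `a ++ bᵐ ++ c` -/
theorem pump {n : ℕ} (L : Language (Fin n)) (hL : L.IsRegular)
    (hinf : {w : List (Fin n) | w ∉ L}.Infinite) :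
    ∃ a b c : List (Fin n), b ≠ [] ∧
      ∀ m : ℕ, a ++ (List.replicate m b).flatten ++ c ∉ L := by
  obtain ⟨σ, hσ, M, hM⟩ := hL.compl
  have hmem : ∀ w : List (Fin n), w ∈ M.accepts ↔ w ∉ L := by
    intro w
    rw [hM]
    exact Iff.rfl
  have hx : ∃ x : List (Fin n), x ∉ L ∧ Fintype.card σ ≤ x.length := by
    by_contra hno
    push Not at hno
    exact hinf ((List.finite_length_lt (Fin n) (Fintype.card σ)).subset (fun w hw => hno w hw))
  obtain ⟨x, hxL, hxlen⟩ := hx
  obtain ⟨a, b, c, -, -, hb, hle⟩ := M.pumping_lemma ((hmem x).2 hxL) hxlen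
  refine ⟨a, b, c, hb, fun m => ?_⟩
  rw [← hmem]
  apply hle
  refine Language.mem_mul.2 ⟨a ++ (List.replicate m b).flatten, ?_, c, rfl, rfl⟩
  refine Language.mem_mul.2 ⟨a, rfl, (List.replicate m b).flatten, ?_, rfl⟩
  exact Language.mem_kstar.2 ⟨List.replicate m b, rfl, fun y hy => List.eq_of_mem_replicate hy⟩

/-! ### jC -/

/-- the complement of the language of leading words is finite -/
theorem compl_finite {K : Type} [Field K] {n : ℕ} (r : List (Fin n) → List (Fin n) → Prop)
    (A : Submodule K (FreeAlgebra K (Fin n))) (I : TwoSidedIdeal (FreeAlgebra K (Fin n)))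
    (hIA : ∀ x ∈ I, x ∈ A) (hnil : NilMod I)
    (hreg : (leadLang r (A : Set (FreeAlgebra K (Fin n)))).IsRegular) :
    {w : List (Fin n) | w ∉ leadLang r (A : Set (FreeAlgebra K (Fin n)))}.Finite := by
  by_contra hinf
  obtain ⟨a, b, c, hb, hm⟩ := pump (leadLang r (A : Set (FreeAlgebra K (Fin n)))) hreg hinf
  obtain ⟨m, -, hmI⟩ := hnil (wd K b) (wd_aug b hb)
  apply hm m
  refine ⟨wd K (a ++ (List.replicate m b).flatten ++ c), ?_, isLead_wd r _⟩
  apply hIA
  rw [wd_append, wd_append, wd_flatten, List.map_replicate, List.prod_replicate]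
  exact TwoSidedIdeal.mul_mem_right _ _ _ (TwoSidedIdeal.mul_mem_left _ _ _ hmI)

/-! ### jR -/

theorem jR_exists_max_finset {α : Type} (r : α → α → Prop) [IsWellOrder α r] (s : Finset α)
    (hs : s.Nonempty) : ∃ u ∈ s, ∀ v ∈ s, v = u ∨ r v u := by
  classical
  induction s using Finset.induction_on with
  | empty => exact absurd hs Finset.not_nonempty_empty
  | insert a s ha ih =>
    rcases s.eq_empty_or_nonempty with h | h
    · subst h
      refine ⟨a, by simp, fun v hv => Or.inl ?_⟩
      simpa using hv
    · obtain ⟨u, hu, hm⟩ := ih h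
      rcases trichotomous_of r a u with h1 | h1 | h1
      · refine ⟨u, Finset.mem_insert_of_mem hu, fun v hv => ?_⟩
        rcases Finset.mem_insert.1 hv with rfl | hv
        · exact Or.inr h1
        · exact hm v hv
      · refine ⟨u, Finset.mem_insert_of_mem hu, fun v hv => ?_⟩
        rcases Finset.mem_insert.1 hv with rfl | hv
        · exact Or.inl h1
        · exact hm v hv
      · refine ⟨a, Finset.mem_insert_self a s, fun v hv => ?_⟩
        rcases Finset.mem_insert.1 hv with rfl | hv
        · exact Or.inl rfl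
        · rcases hm v hv with rfl | h2
          · exact Or.inr h1
          · exact Or.inr (trans_of r h2 h1)

theorem jR_exists_lead {K : Type} [Field K] {n : ℕ} (r : List (Fin n) → List (Fin n) → Prop)
    [IsWellOrder (List (Fin n)) r] (x : FreeAlgebra K (Fin n)) (hx : x ≠ 0) :
    ∃ u, coeff x u ≠ 0 ∧ ∀ v, coeff x v ≠ 0 → v = u ∨ r v u := by
  have hne : (coeff_finite x).toFinset.Nonempty := by
    by_contra h
    apply hx
    apply eq_zero_of_coeff
    intro v
    by_contra hv
    exact h ⟨v, by simpa using hv⟩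
  obtain ⟨u, hu, hm⟩ := jR_exists_max_finset r _ hne
  refine ⟨u, by simpa using hu, fun v hv => hm v (by simpa using hv)⟩

/-- reduction: every element is a sum of an element of `A` and a combination of words outside the
language of leading words -/
theorem reduce {K : Type} [Field K] {n : ℕ} (r : List (Fin n) → List (Fin n) → Prop)
    [IsWellOrder (List (Fin n)) r]
    (A : Submodule K (FreeAlgebra K (Fin n))) (x : FreeAlgebra K (Fin n)) :
    ∃ a ∈ A, ∃ v ∈ Submodule.span K
      (wd K '' {w : List (Fin n) | w ∉ leadLang r (A : Set (FreeAlgebra K (Fin n)))}),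
      x = a + v := by
  set T := Submodule.span K
      (wd K '' {w : List (Fin n) | w ∉ leadLang r (A : Set (FreeAlgebra K (Fin n)))}) with hT
  have key : ∀ w, ∀ x : FreeAlgebra K (Fin n), (∀ v, coeff x v ≠ 0 → v = w ∨ r v w) →
      x ∈ A ⊔ T := by
    intro w
    refine (IsWellFounded.wf (r := r)).induction
      (C := fun w => ∀ x : FreeAlgebra K (Fin n), (∀ v, coeff x v ≠ 0 → v = w ∨ r v w) →
      x ∈ A ⊔ T) w ?_
    intro w IH x hx
    have haux : ∀ y : FreeAlgebra K (Fin n), (∀ v, coeff y v ≠ 0 → r v w) → y ∈ A ⊔ T := by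
      intro y hy
      by_cases h0 : y = 0
      · rw [h0]; exact (A ⊔ T).zero_mem
      · obtain ⟨u, hu, hmax⟩ := jR_exists_lead r y h0
        exact IH u (hy u hu) y hmax
    by_cases hc : coeff x w = 0
    · apply haux
      intro v hv
      rcases hx v hv with rfl | h
      · exact absurd hc hv
      · exact h
    · by_cases hw : w ∈ leadLang r (A : Set (FreeAlgebra K (Fin n)))
      · obtain ⟨f, hfA, hf0, hfm⟩ := hw
        have hy : (x - (coeff x w / coeff f w) • f) ∈ A ⊔ T := by
          apply haux
          intro v hv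
          rw [coeff_sub, coeff_smul] at hv
          by_cases hvw : v = w
          · subst hvw
            exact absurd (by rw [div_mul_cancel₀ _ hf0, sub_self]) hv
          · by_cases h1 : coeff x v = 0
            · have h2 : coeff f v ≠ 0 := by
                intro h
                apply hv
                rw [h1, h]
                simp
              exact (hfm v h2).resolve_left hvw
            · exact (hx v h1).resolve_left hvw
        have h3 := (A ⊔ T).add_mem hy
          (Submodule.mem_sup_left (A.smul_mem (coeff x w / coeff f w) hfA))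
        rwa [sub_add_cancel] at h3
      · have hy : (x - (coeff x w) • wd K w) ∈ A ⊔ T := by
          apply haux
          intro v hv
          rw [coeff_sub, coeff_smul, coeff_wd] at hv
          by_cases hvw : v = w
          · subst hvw
            exact absurd (by simp) hv
          · rw [if_neg hvw, mul_zero, sub_zero] at hv
            exact (hx v hv).resolve_left hvw
        have h3 := (A ⊔ T).add_mem hy
          (Submodule.mem_sup_right (T.smul_mem (coeff x w)
            (Submodule.subset_span (Set.mem_image_of_mem (wd K) hw))))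
        rwa [sub_add_cancel] at h3
  have hx : x ∈ A ⊔ T := by
    by_cases h0 : x = 0
    · rw [h0]; exact (A ⊔ T).zero_mem
    · obtain ⟨u, hu, hmax⟩ := jR_exists_lead r x h0
      exact key u x hmax
  obtain ⟨a, ha, v, hv, he⟩ := Submodule.mem_sup.1 hx
  exact ⟨a, ha, v, hv, he.symm⟩

/-! ### jPl -/

theorem jPl_plus_regular_split {α : Type*} (l : List (List α)) (hl : l ≠ []) :
    ∀ x y : List α, x ++ y = l.flatten → ∃ (l1 : List (List α)) (u : List α) (l2 : List (List α)),
      l = l1 ++ u :: l2 ∧ ∃ p s, u = p ++ s ∧ x = l1.flatten ++ p ∧ y = s ++ l2.flatten := by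
  induction l with
  | nil => exact absurd rfl hl
  | cons u l2 ih =>
    intro x y hxy
    rw [List.flatten_cons] at hxy
    rcases List.append_eq_append_iff.1 hxy with ⟨a, h1, h2⟩ | ⟨c, h1, h2⟩
    · exact ⟨[], u, l2, rfl, x, a, h1, by simp, h2⟩
    · by_cases hl2 : l2 = []
      · subst hl2
        simp only [List.flatten_nil] at h2
        have h3 : c = [] ∧ y = [] := by
          have := h2.symm
          exact List.append_eq_nil_iff.1 this
        obtain ⟨rfl, rfl⟩ := h3
        exact ⟨[], u, [], rfl, u, [], by simp, by simpa using h1, by simp⟩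
      · obtain ⟨l1, u', l2', he, p, s, hu, hc, hy⟩ := ih hl2 c y h2.symm
        exact ⟨u :: l1, u', l2', by rw [he]; rfl, p, s, hu, by rw [h1, hc]; simp, hy⟩

/-- the semigroup generated by finitely many words is a regular language -/
theorem plus_regular {n : ℕ} (W : Set (List (Fin n))) (hW : W.Finite) :
    (plusLang W).IsRegular := by
  classical
  apply Language.IsRegular.of_finite_range_leftQuotient
  let G : Set (List (Fin n)) → Language (Fin n) := fun T =>
    {y | ∃ s ∈ T, ∃ l' : List (List (Fin n)), (∀ u ∈ l', u ∈ W) ∧ y = s ++ l'.flatten}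
  let Suf : Set (List (Fin n)) := ⋃ w ∈ W, {s | s ∈ w.tails}
  have hSuf : Suf.Finite := hW.biUnion (fun w _ => List.finite_toSet w.tails)
  let T : List (Fin n) → Set (List (Fin n)) := fun x =>
    {s | ∃ l : List (List (Fin n)), (∀ u ∈ l, u ∈ W) ∧ ∃ p, x = l.flatten ++ p ∧ p ++ s ∈ W}
  have hT : ∀ x, T x ⊆ Suf := by
    rintro x s ⟨l, hl, p, hx, hp⟩
    refine Set.mem_iUnion₂.2 ⟨p ++ s, hp, ?_⟩
    show s ∈ (p ++ s).tails
    rw [List.mem_tails]
    exact List.suffix_append p s
  have hG : ∀ x, (plusLang W).leftQuotient x = G (T x) := by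
    intro x
    ext y
    constructor
    · intro hy
      have hy' : x ++ y ∈ plusLang W := hy
      obtain ⟨l, hl, hlW, he⟩ := hy'
      obtain ⟨l1, u, l2, hl12, p, s, hu, hx, hy2⟩ := jPl_plus_regular_split l hl x y he
      subst hl12
      refine ⟨s, ⟨l1, fun v hv => hlW v (by simp [hv]), p, hx, ?_⟩, l2,
        fun v hv => hlW v (by simp [hv]), hy2⟩
      rw [← hu]
      exact hlW u (by simp)
    · rintro ⟨s, ⟨l, hl, p, hx, hp⟩, l', hl', hy⟩
      show x ++ y ∈ plusLang W
      refine ⟨l ++ (p ++ s) :: l', by simp, ?_, ?_⟩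
      · intro u hu
        rw [List.mem_append, List.mem_cons] at hu
        rcases hu with hu | hu | hu
        · exact hl u hu
        · rw [hu]; exact hp
        · exact hl' u hu
      · rw [hx, hy]
        simp
  refine (hSuf.finite_subsets.image G).subset ?_
  rintro _ ⟨x, rfl⟩
  exact ⟨T x, hT x, (hG x).symm⟩

/-! ### jL -/

theorem jL_lead_adjoin_aux1 {K : Type} [Field K] {n : ℕ}
    (W : Set (List (Fin n))) (l : List (List (Fin n))) (hl : l ≠ []) (h : ∀ u ∈ l, u ∈ W) :
    wd K l.flatten ∈
      (NonUnitalAlgebra.adjoin K (wd K '' W) : NonUnitalSubalgebra K (FreeAlgebra K (Fin n))) := by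
  induction l with
  | nil => exact absurd rfl hl
  | cons u l ih =>
    have hu : wd K u ∈
        (NonUnitalAlgebra.adjoin K (wd K '' W) : NonUnitalSubalgebra K (FreeAlgebra K (Fin n))) :=
      NonUnitalAlgebra.subset_adjoin K ⟨u, h u (by simp), rfl⟩
    rcases eq_or_ne l [] with rfl | hne
    · simpa using hu
    · rw [List.flatten_cons, wd_append]
      exact mul_mem hu (ih hne fun u' hu' => h u' (by simp [hu']))

theorem jL_lead_adjoin_aux2 {K : Type} [Field K] {n : ℕ}
    (W : Set (List (Fin n))) (f : FreeAlgebra K (Fin n))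
    (hf : f ∈ (NonUnitalAlgebra.adjoin K (wd K '' W) : NonUnitalSubalgebra K (FreeAlgebra K (Fin n)))) :
    f ∈ Submodule.span K (wd K '' (plusLang W : Set (List (Fin n)))) := by
  induction hf using NonUnitalAlgebra.adjoin_induction with
  | mem x hx =>
    obtain ⟨u, hu, rfl⟩ := hx
    exact Submodule.subset_span ⟨u, ⟨[u], by simp, by simpa using hu, by simp⟩, rfl⟩
  | add x y _ _ hx hy => exact Submodule.add_mem _ hx hy
  | zero => exact Submodule.zero_mem _
  | mul x y _ _ hx hy =>
    have h := Submodule.mul_mem_mul hx hy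
    rw [Submodule.span_mul_span] at h
    refine Submodule.span_mono ?_ h
    rintro _ ⟨_, ⟨a, ⟨l1, h1, h1', rfl⟩, rfl⟩, _, ⟨b, ⟨l2, h2, h2', rfl⟩, rfl⟩, rfl⟩
    refine ⟨l1.flatten ++ l2.flatten, ⟨l1 ++ l2, by simp [h1], ?_, by simp⟩, ?_⟩
    · intro u hu
      rcases List.mem_append.1 hu with hu | hu
      · exact h1' u hu
      · exact h2' u hu
    · exact wd_append _ _
  | smul r x _ hx => exact Submodule.smul_mem _ _ hx

theorem jL_lead_adjoin_aux3 {K : Type} [Field K] {n : ℕ}
    (W : Set (List (Fin n))) (f : FreeAlgebra K (Fin n))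
    (hf : f ∈ Submodule.span K (wd K '' (plusLang W : Set (List (Fin n))))) :
    ∀ v, coeff f v ≠ 0 → v ∈ (plusLang W : Set (List (Fin n))) := by
  induction hf using Submodule.span_induction with
  | mem x hx =>
    obtain ⟨u, hu, rfl⟩ := hx
    intro v hv
    rw [coeff_wd] at hv
    by_cases h : v = u
    · rw [h]; exact hu
    · simp [h] at hv
  | zero =>
    intro v hv
    exfalso
    apply hv
    have := coeff_smul (K := K) (n := n) 0 0 v
    simpa using this
  | add x y _ _ hx hy =>
    intro v hv
    rw [coeff_add] at hv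
    by_cases h1 : coeff x v = 0
    · by_cases h2 : coeff y v = 0
      · rw [h1, h2] at hv
        simp at hv
      · exact hy v h2
    · exact hx v h1
  | smul c x _ hx =>
    intro v hv
    rw [coeff_smul] at hv
    exact hx v (right_ne_zero_of_mul hv)

/-- leading words of the subalgebra generated by the words of `W` -/
theorem lead_adjoin {K : Type} [Field K] {n : ℕ} (r : List (Fin n) → List (Fin n) → Prop)
    (W : Set (List (Fin n))) :
    leadLang r ((NonUnitalAlgebra.adjoin K (wd K '' W) : NonUnitalSubalgebra K (FreeAlgebra K (Fin n))) :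
      Set (FreeAlgebra K (Fin n))) = plusLang W := by
  apply Set.Subset.antisymm
  · rintro w ⟨f, hf, hw⟩
    exact jL_lead_adjoin_aux3 W f (jL_lead_adjoin_aux2 W f hf) w hw.1
  · rintro w ⟨l, hl, hl', rfl⟩
    exact ⟨wd K l.flatten, jL_lead_adjoin_aux1 W l hl hl', isLead_wd r _⟩

/-! ### jF -/

/-- the general criterion -/
theorem criterion {K : Type} [Field K] {n : ℕ} (r : List (Fin n) → List (Fin n) → Prop)
    [IsWellOrder (List (Fin n)) r]
    (A : Submodule K (FreeAlgebra K (Fin n))) (I : TwoSidedIdeal (FreeAlgebra K (Fin n)))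
    (hIA : ∀ x ∈ I, x ∈ A) (hnil : NilMod I)
    (hreg : (leadLang r (A : Set (FreeAlgebra K (Fin n)))).IsRegular) :
    ∃ V : Submodule K (FreeAlgebra K (Fin n)), FiniteDimensional K V ∧
      ∀ x : FreeAlgebra K (Fin n), ∃ a ∈ A, ∃ v ∈ V, x = a + v := by
  have hfin := compl_finite r A I hIA hnil hreg
  refine ⟨Submodule.span K
      (wd K '' {w : List (Fin n) | w ∉ leadLang r (A : Set (FreeAlgebra K (Fin n)))}), ?_, ?_⟩
  · exact FiniteDimensional.span_of_finite K (hfin.image _)
  · exact reduce r A

/-- there is a well order on words -/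
theorem monomial_case {K : Type} [Field K] {n : ℕ} (W : Finset (List (Fin n)))
    (I : TwoSidedIdeal (FreeAlgebra K (Fin n)))
    (hIA : ∀ x ∈ I, x ∈ NonUnitalAlgebra.adjoin K (wd K '' (W : Set (List (Fin n)))))
    (hnil : NilMod I) :
    ∃ V : Submodule K (FreeAlgebra K (Fin n)), FiniteDimensional K V ∧
      ∀ x : FreeAlgebra K (Fin n),
        ∃ a ∈ NonUnitalAlgebra.adjoin K (wd K '' (W : Set (List (Fin n)))), ∃ v ∈ V, x = a + v := by
  have hreg : (leadLang WellOrderingRel ((NonUnitalAlgebra.adjoin K
      (wd K '' (W : Set (List (Fin n)))) : NonUnitalSubalgebra K (FreeAlgebra K (Fin n))) :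
      Set (FreeAlgebra K (Fin n)))).IsRegular := by
    rw [lead_adjoin]
    exact plus_regular _ W.finite_toSet
  exact criterion WellOrderingRel
    (NonUnitalAlgebra.adjoin K (wd K '' (W : Set (List (Fin n))))).toSubmodule I hIA hnil hreg

/-- the case of a finite set of leading words generating all leading words -/
theorem sagbi_case {K : Type} [Field K] {n : ℕ} (r : List (Fin n) → List (Fin n) → Prop)
    [IsWellOrder (List (Fin n)) r]
    (A : NonUnitalSubalgebra K (FreeAlgebra K (Fin n)))
    (W : Finset (List (Fin n)))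
    (hW : leadLang r (A : Set (FreeAlgebra K (Fin n))) = plusLang (W : Set (List (Fin n))))
    (I : TwoSidedIdeal (FreeAlgebra K (Fin n)))
    (hIA : ∀ x ∈ I, x ∈ A) (hnil : NilMod I) :
    ∃ V : Submodule K (FreeAlgebra K (Fin n)), FiniteDimensional K V ∧
      ∀ x : FreeAlgebra K (Fin n), ∃ a ∈ A, ∃ v ∈ V, x = a + v := by
  have hreg : (leadLang r (A : Set (FreeAlgebra K (Fin n)))).IsRegular := by
    rw [hW]
    exact plus_regular _ W.finite_toSet
  exact criterion r A.toSubmodule I hIA hnil hreg

/-- Main result.  `I` is a two-sided ideal of the free algebra such that every element of the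
augmentation ideal `F` has a power in `I`.
(1) If `A` is a subspace containing `I` and, for some well order `r` of the words, the leading
words of the elements of `A` form a regular language, then `A` has finite codimension.
(2) The same if `A` is a subalgebra containing `I` whose semigroup of leading words is generated
by finitely many words (finite SAGBI basis).
(3) If `A` is the (non-unital) subalgebra generated by finitely many monomials and `I ⊆ A`, then
`A` has finite codimension. -/
theorem result (K : Type) [Field K] (n : ℕ) (I : TwoSidedIdeal (FreeAlgebra K (Fin n)))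
    (hnil : ∀ f : FreeAlgebra K (Fin n), FreeAlgebra.lift K (0 : Fin n → K) f = 0 →
      ∃ m : ℕ, 0 < m ∧ f ^ m ∈ I) :
    (∀ (r : List (Fin n) → List (Fin n) → Prop) [IsWellOrder (List (Fin n)) r]
      (A : Submodule K (FreeAlgebra K (Fin n))),
      (∀ x ∈ I, x ∈ A) →
      (leadLang r (A : Set (FreeAlgebra K (Fin n)))).IsRegular →
      ∃ V : Submodule K (FreeAlgebra K (Fin n)), FiniteDimensional K V ∧
        ∀ x : FreeAlgebra K (Fin n), ∃ a ∈ A, ∃ v ∈ V, x = a + v) ∧
    (∀ (r : List (Fin n) → List (Fin n) → Prop) [IsWellOrder (List (Fin n)) r]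
      (A : NonUnitalSubalgebra K (FreeAlgebra K (Fin n))) (W : Finset (List (Fin n))),
      (∀ x ∈ I, x ∈ A) →
      leadLang r (A : Set (FreeAlgebra K (Fin n))) = plusLang (W : Set (List (Fin n))) →
      ∃ V : Submodule K (FreeAlgebra K (Fin n)), FiniteDimensional K V ∧
        ∀ x : FreeAlgebra K (Fin n), ∃ a ∈ A, ∃ v ∈ V, x = a + v) ∧
    (∀ W : Finset (List (Fin n)),
      (∀ x ∈ I, x ∈ NonUnitalAlgebra.adjoin K (wd K '' (W : Set (List (Fin n))))) →
      ∃ V : Submodule K (FreeAlgebra K (Fin n)), FiniteDimensional K V ∧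
        ∀ x : FreeAlgebra K (Fin n),
          ∃ a ∈ NonUnitalAlgebra.adjoin K (wd K '' (W : Set (List (Fin n)))),
            ∃ v ∈ V, x = a + v) := by
  refine ⟨fun r _ A hIA hreg => ?_, fun r _ A W hIA hW => ?_, fun W hIA => ?_⟩
  · exact criterion r A I hIA hnil hreg
  · exact sagbi_case r A W hW I hIA hnil
  · exact monomial_case W I hIA hnil

end Pool.Agent.Results.MP_0d1f08_al.RegularLeading
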